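import Pool.Agent.Helper9.UQ.COV
import Pool.Agent.Helper94.UQ.COMB
import Pool.Agent.Helper22.UQ.THIRD
import Pool.Agent.Helper38.UQ.BOX
import Pool.Agent.Helper79.UQ.CNT
import Pool.Agent.Helper42.UQ.PAR
import Pool.Agent.Helper8.UQ.NETZ
import Pool.Agent.Helper56.UQ.TYP
import Pool.Agent.Helper39.UQ.GEO1
import Pool.Agent.Helper89.UQ.LEG
import Pool.Agent.Helper30.UQ.GEOI
import Pool.Agent.Helper77.UQ.SPAN
import Pool.Agent.Helper71.UQ.Num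
import Pool.Agent.Helper75.UQ.UPP1
import Pool.Agent.Helper60.UQ.UPPI
import Pool.Agent.Helper12.UQ.NEG

/-!
# MP_9b2a83_an, project UQ: the assembly
-/

namespace Pool.Agent.Helper71.UQ

theorem netz_all : G_NETZ :=
  Pool.Agent.Helper8.UQ.PkNETZ.thm
    (Pool.Agent.Helper38.UQ.PkBOX.thm
      (Pool.Agent.Helper94.UQ.PkCOMB.thm Pool.Agent.Helper9.UQ.PkCOV.thm)
      Pool.Agent.Helper22.UQ.PkTHIRD.thm)
    Pool.Agent.Helper79.UQ.PkCNT.thm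
    Pool.Agent.Helper42.UQ.PkPAR.thm

theorem upp1_all : G_UPP1 :=
  Pool.Agent.Helper75.UQ.PkUPP1.thm netz_all
    (Pool.Agent.Helper39.UQ.PkGEO1.thm Pool.Agent.Helper56.UQ.PkTYP.thm)
    Pool.Agent.Helper77.UQ.PkSPAN.thm
    Pool.Agent.Helper71.UQ.PkNUM.thm

theorem uppi_all : G_UPPI :=
  Pool.Agent.Helper60.UQ.PkUPPI.thm netz_all
    (Pool.Agent.Helper30.UQ.PkGEOI.thm Pool.Agent.Helper56.UQ.PkTYP.thm
      Pool.Agent.Helper89.UQ.PkLEG.thm)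
    Pool.Agent.Helper77.UQ.PkSPAN.thm
    Pool.Agent.Helper71.UQ.PkNUM.thm

theorem neg_all : G_NEG := Pool.Agent.Helper12.UQ.PkNEG.thm

end Pool.Agent.Helper71.UQ
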