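import Pool.Agent.Helper39.Net.Parts

/-!
# MP_9b2a83_an, project UQ: an upper bound that beats `L ^ d` in Q1

Theorem. Let `L = 1 + log (1 + 1 / (c - 1))`, `ℓ = log (e + L)`, `λ = log (e + ℓ)`. There is an
absolute `A` with `C_1(c, d) ≤ A^d L^2 ℓ (L λ / ℓ)^d` for `d ≥ 1` and
`C_∞(c, d) ≤ A^d L^2 ℓ (L λ / ℓ)^(d - 1)` for `d ≥ 2`. With the known lower bound
`(L / ℓ)^(d - 2) ≤ A^d C_p(c, d)` this determines `C_p` up to `A^d L^5 λ^d`.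

Idea: the hub of a pair `a < b` (coordinatewise) may depend on a rounding of the vector of dyadic
scales only, if two hubs (one for `a`, one for `b`) are used; the edges between hubs are cheap because
on a small set `T'` of coordinates the hub has the position of a point of the set itself, which is
common to many vectors of scales.
-/

set_option autoImplicit false

namespace Pool.Agent.Helper71.UQ

open Pool.Agent.Helper39.Net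

/-- The key of a vector `j` of scales: exact on `T`, rounded by `g` off `T`. -/
def key {d : ℕ} (T : Finset (Fin d)) (g : ℕ → ℕ) (j : Fin d → ℕ) : Fin d → ℕ :=
  fun i => if i ∈ T then j i else g (j i)

/-- Forget the coordinates in `T'`. -/
def drop {d : ℕ} (T' : Finset (Fin d)) (κ : Fin d → ℕ) : Fin d → ℕ :=
  fun i => if i ∈ T' then 0 else κ i

/-- Three step networks: every `a` has at most `T1` hubs, every `b` at most `T2`, there are at most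
`T3 * |X|` edges between hubs, and `a ∈ X`, `b ∈ Y` with `R a b` have hubs `a ≤ v ≤ w ≤ b` (in every
coordinate) joined by an edge. -/
def Net3 (d : ℕ) (R : (Fin d → ℤ) → (Fin d → ℤ) → Prop) (T1 T2 T3 : ℕ) : Prop :=
  ∀ X Y : Finset (Fin d → ℤ), ∃ (hL hU : (Fin d → ℤ) → Finset (Fin d → ℤ))
    (H : Finset ((Fin d → ℤ) × (Fin d → ℤ))),
    (∀ a, (hL a).card ≤ T1) ∧ (∀ b, (hU b).card ≤ T2) ∧ H.card ≤ T3 * X.card ∧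
    ∀ a ∈ X, ∀ b ∈ Y, R a b → ∃ v ∈ hL a, ∃ w ∈ hU b, (v, w) ∈ H ∧
      ∀ i, a i ≤ v i ∧ v i ≤ w i ∧ w i ≤ b i

/-- The pairs at dyadic scales `j ∈ F`. -/
def RF {d : ℕ} (F : Finset (Fin d → ℕ)) (a b : Fin d → ℤ) : Prop :=
  ∃ j ∈ F, ∀ i, a i / 2 ^ (j i + 1) = b i / 2 ^ (j i + 1) ∧ a i / 2 ^ (j i) < b i / 2 ^ (j i)

/-- The pairs of `ℓ_1` size at most `2 ^ J * d / 4`. -/
def RJ {d : ℕ} (J : ℕ) (a b : Fin d → ℤ) : Prop :=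
  (∀ i, a i < b i) ∧ 4 * ∑ i, (b i - a i) ≤ 2 ^ J * d

/-- The vectors of scales with `∑ 2 ^ j_i ≤ 2 ^ J * d`. -/
def Fs (d J : ℕ) : Finset (Fin d → ℕ) :=
  (Fintype.piFinset fun _ : Fin d => Finset.range (2 ^ J * d + 1)).filter
    fun j => ∑ i, 2 ^ (j i) ≤ 2 ^ J * d

/-- Rounding to a multiple of `τ` below `J`. -/
def gJ (τ J j : ℕ) : ℕ := if j < J then τ * (j / τ) else j

/-! ### The combinatorial part -/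

/-- UQ-COV: every finite set is covered by few hubs, each of which is above the points it covers in
half of the coordinates of `T`.

PROOF. Let `K = |T|`, `h = (K + 1) / 2`, `B = 2 ^ (K + 1)`. Say that `(T', x0)` covers `x` if
`x i ≤ x0 i` for `i ∈ T'`.
(1) Every nonempty `U ⊆ L` has `T' ⊆ T` with `|T'| = h` and `x0 ∈ U` such that `(T', x0)` covers `n`
points of `U` with `B * n ≥ |U|`. For `x, x0 ∈ U` the sets `{i ∈ T | x i ≤ x0 i}` and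
`{i ∈ T | x0 i ≤ x i}` have union `T`, so one of them has at least `h` elements. Call `(x, x0)` good if
the first one has. The good pairs and their images under the exchange cover `U ×ˢ U`, so
`2 * #good ≥ |U|^2`, and some `x0 ∈ U` has at least `|U| / 2` good `x` (`2 * n0 ≥ |U|`). Each of these
`x` is covered by `(T', x0)` for some `T' ⊆ {i ∈ T | x i ≤ x0 i}` with `|T'| = h`
(`Finset.exists_subset_card_eq`). There are at most `2 ^ K` sets `T' ⊆ T`, so one of them works for at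
least `n0 / 2 ^ K` of the `x` (`Finset.exists_le_card_fiber_of_mul_le_card_of_maps_to` or similar).
(2) For all `m` and `U ⊆ L` with `|U| * (B - 1) ^ m < B ^ m` there is a set `C` of at most `m` such
pairs (with `x0 ∈ L`) covering all of `U`. Induction on `m` (for all `U`): if `U = ∅` take `C = ∅` (this
is the case `m = 0`); otherwise take `(T', x0)` of (1) and `U' =` the points of `U` that are not covered: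
`B * |U'| ≤ (B - 1) * |U|`, so `B * |U'| * (B - 1)^(m - 1) ≤ |U| (B - 1)^m < B^m`; apply the induction
hypothesis to `U'`.
(3) With `m = B * (Λ + 1)`: `(B - 1)^B * 2 ≤ B^B` (`one_add_mul_le_pow`: `(1 + 1 / (B - 1))^B ≥
1 + B / (B - 1) ≥ 2`; or `two_mul_le...` by the binomial theorem), so
`2^Λ * (B - 1)^m < 2^(Λ + 1) (B - 1)^m ≤ B^m` (`B ≥ 2`, so `(B - 1)^m > 0`). Apply (2) to `U = L`. -/
def G_COV : Prop := ∀ (d Λ : ℕ) (T : Finset (Fin d)) (L : Finset (Fin d → ℤ)), L.card ≤ 2 ^ Λ →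
  ∃ C : Finset (Finset (Fin d) × (Fin d → ℤ)), C.card ≤ 2 ^ (T.card + 1) * (Λ + 1) ∧
    (∀ q ∈ C, q.1 ⊆ T ∧ q.1.card = (T.card + 1) / 2 ∧ q.2 ∈ L) ∧
    ∀ x ∈ L, ∃ q ∈ C, ∀ i ∈ q.1, x i ≤ q.2 i

/-- UQ-COMB: three step networks for the pairs at scales in `F` (may assume `G_COV`).

PROOF. Let `K = |T|`, `keys = F.image (key T g)`. For `κ ∈ keys` and `z` let the block be
`Bl κ z = {x ∈ X | (∀ i ∈ T, x i / 2^(κ i) = 2 * (z i / 2^(κ i + 1))) ∧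
(∀ i ∉ T, x i / 2^(κ i + τ) = z i / 2^(κ i + τ))}`.
It has at most `2 ^ Λ` points: `x i` is in an interval (`Finset.Ico`) of `2^(κ i)` resp.
`2^(κ i + τ)` integers, both `≤ 2^(j i + 1 + τ)` if `κ = key T g j`, `j ∈ F` (`g (j i) ≤ j i`); so `Bl κ z`
is contained in a `Fintype.piFinset` of intervals of total size `≤ 2 ^ (∑ i, (j i + 1 + τ)) ≤ 2 ^ Λ`.
Let `C κ z` be the set given by `G_COV` for `Bl κ z` (depending on `κ, z` only through the set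
`Bl κ z`: choose a function of the set `L`). For `q = (T', x0)` put
`v a κ q i = x0 i` for `i ∈ T'`, `(2 * (a i / 2^(κ i + 1)) + 1) * 2^(κ i)` for `i ∈ T \ T'`,
`(a i / 2^(κ i) + 1) * 2^(κ i)` for `i ∉ T`;
`w b κ q i = x0 i` for `i ∈ T'`, `(2 * (b i / 2^(κ i + 1)) + 1) * 2^(κ i)` for `i ∈ T \ T'`,
`(b i / 2^(κ i)) * 2^(κ i)` for `i ∉ T`.
`hL a` = the `v a κ q`, `κ ∈ keys`, where `q = q(κ, a)` is a chosen element of `C κ a` covering `a`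
(anything if there is none); `hU b` = the `w b κ q`, `κ ∈ keys`, `q ∈ C κ b`. The sizes are clear.
`H` = the pairs `(pos T' x0 κ' n, pos T' x0 κ' n')` with `T' ⊆ T` of size `(K + 1) / 2`, `x0 ∈ X`,
`κ' ∈ keys.image (drop T')`, and `n, n' : Fin d → ℕ` with values in `[0, 2^τ]` off `T` and `0` on `T`
(`(2^τ + 1)^(d - K)` maps each), where `pos T' x0 κ' n i = x0 i` for `i ∈ T'`,
`(2 * (x0 i / 2^(κ' i + 1)) + 1) * 2^(κ' i)` for `i ∈ T \ T'`,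
`((x0 i / 2^(κ' i + τ)) * 2^τ + n i) * 2^(κ' i)` for `i ∉ T`. So `|H| ≤ 2^K * N2 * (2^τ+1)^(2 (d-K)) * |X|`.
Now let `a ∈ X`, `b ∈ Y`, `j ∈ F` be as in `RF`, `κ = key T g j`. For `i ∈ T` (`κ i = j i`): with
`c = a i / 2^(j i + 1) = b i / 2^(j i + 1)` the numbers `a i / 2^(j i) < b i / 2^(j i)` are in
`{2 c, 2 c + 1}`, so they are `2 c` and `2 c + 1`. For `i ∉ T`: `j i + 1 ≤ κ i + τ`, so
`a i / 2^(κ i + τ) = b i / 2^(κ i + τ)` (`Int.ediv_ediv_eq_ediv_mul`), and `κ i ≤ j i`, so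
`a i / 2^(κ i) < b i / 2^(κ i)` (else `a i / 2^(j i) ≥ b i / 2^(j i)`). Hence `Bl κ a = Bl κ b` contains
`a`, so `C κ a = C κ b`, and `q = q(κ, a) = (T', x0) ∈ C κ b` covers `a`, `x0 ∈ Bl κ b`. Put
`v = v a κ q ∈ hL a`, `w = w b κ q ∈ hU b`.
`i ∈ T'`: `a i ≤ x0 i`, and `x0 i / 2^(κ i) = 2 c < b i / 2^(κ i)` gives `x0 i ≤ b i`.
`i ∈ T \ T'`: `v i = w i = (2 c + 1) 2^(κ i)`, `a i < (2 c + 1) 2^(κ i) ≤ b i`.
`i ∉ T`: `a i < v i`, `w i ≤ b i`, and `v i ≤ w i` since `a i / 2^(κ i) + 1 ≤ b i / 2^(κ i)`.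
`(v, w) ∈ H` with `κ' = drop T' κ`: for `i ∈ T \ T'` `x0 i / 2^(κ i) = 2 c` gives
`x0 i / 2^(κ i + 1) = c`; for `i ∉ T`, `x0 i / 2^(κ i + τ) = a i / 2^(κ i + τ) = b i / 2^(κ i + τ) =: c`,
`a i / 2^(κ i) = c * 2^τ + n0` with `0 ≤ n0 < 2^τ` (`n i = n0 + 1`), and
`b i / 2^(κ i) = c * 2^τ + n' i`. -/
def G_COMB : Prop := ∀ (d τ Λ N1 N2 : ℕ) (T : Finset (Fin d)) (g : ℕ → ℕ)
  (F : Finset (Fin d → ℕ)), (∀ j, g j ≤ j ∧ j < g j + τ) →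
  (F.image (key T g)).card ≤ N1 →
  (∀ T' ⊆ T, T'.card = (T.card + 1) / 2 → ((F.image (key T g)).image (drop T')).card ≤ N2) →
  (∀ j ∈ F, ∑ i, (j i + 1 + τ) ≤ Λ) →
  Net3 d (RF F) N1 (N1 * (2 ^ (T.card + 1) * (Λ + 1)))
    (2 ^ T.card * N2 * (2 ^ τ + 1) ^ (2 * (d - T.card)))

/-- UQ-THIRD: the shift by a third.

PROOF. If both alternatives fail there are multiples `P, P'` of `2^J` with `X < P ≤ Y` and
`X + s < P' ≤ Y + s` (e.g. `P = (Y / 2^J) * 2^J`: as `X / 2^J < Y / 2^J`, `X < P`). Put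
`δ = (P' - s) - P`, `|δ| < Y - X`. `3 δ = 3 (P' - P) - 3 s = 3 (P' - P) + 1 - 4^m` and
`2^J ∣ 4^m = 2^(2 m)`, so `3 δ = 1 + k * 2^J` for an integer `k`. `k = 0` is impossible (`3 ∤ 1`);
`k ≥ 1` gives `3 δ ≥ 1 + 2^J > 3 (Y - X)`; `k ≤ -1` gives `3 δ ≤ 1 - 2^J < -3 (Y - X)`. -/
def G_THIRD : Prop := ∀ (m J : ℕ) (s X Y : ℤ), 3 * s + 1 = 4 ^ m → J ≤ 2 * m → X ≤ Y →
  3 * (Y - X) + 1 < 2 ^ J → X / 2 ^ J = Y / 2 ^ J ∨ (X + s) / 2 ^ J = (Y + s) / 2 ^ J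

/-- UQ-BOX: from dyadic scales to all pairs of bounded size (may assume `G_COMB`, `G_THIRD`).

PROOF. Let `K = |T|`, `m = J + 1 + d` and `s` with `3 s + 1 = 4^m` (`s = (4^m - 1) / 3`). For
`e : Fin d → ({0, s})` (`2^d` vectors, e.g. indexed by `Fin d → Bool` or `Finset (Fin d)`) apply `G_COMB`
with `F = Fs d J` to the translates `X + e`, `Y + e` (images; `|X + e| ≤ |X|`): `hL_e, hU_e, H_e`. Let
`hL a = ⋃_e (hL_e (a + e) - e)`, `hU b = ⋃_e (hU_e (b + e) - e)`, `H = ⋃_e {(v - e, w - e)}`; the sizes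
are multiplied by `2^d`.
Let `RJ J a b`, `Δ i = b i - a i ≥ 1`. For each `i` let `J_i` be minimal with `3 Δ_i + 1 < 2^(J_i)`
(`Nat.find`); `J_i ≥ 1` and `2^(J_i - 1) ≤ 3 Δ_i + 1 ≤ 4 Δ_i`. As `4 Δ_i ≤ 4 ∑ Δ ≤ 2^J d`,
`2^(J_i - 1) ≤ 2^J d < 2^(J + d)`, so `J_i ≤ J + d + 1 ≤ 2 m`. `G_THIRD` gives `e_i ∈ {0, s}` with
`(a i + e_i) / 2^(J_i) = (b i + e_i) / 2^(J_i)`. Let `j_i < J_i` be the largest with
`(a i + e_i) / 2^(j_i) ≠ (b i + e_i) / 2^(j_i)` (`j = 0` is possible as `a i ≠ b i`); then the two numbers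
are equal for `j_i + 1`, and `<` for `j_i` (monotonicity of `/`). `2^(j_i) ≤ 2^(J_i - 1) ≤ 4 Δ_i`, so
`∑ 2^(j_i) ≤ 4 ∑ Δ_i ≤ 2^J d` and `j ∈ Fs d J` (`j_i < 2^(j_i)`). So `RF (Fs d J) (a + e) (b + e)`. -/
def G_BOX : Prop := ∀ (d J τ Λ N1 N2 : ℕ) (T : Finset (Fin d)) (g : ℕ → ℕ),
  (∀ j, g j ≤ j ∧ j < g j + τ) →
  ((Fs d J).image (key T g)).card ≤ N1 →
  (∀ T' ⊆ T, T'.card = (T.card + 1) / 2 →
    (((Fs d J).image (key T g)).image (drop T')).card ≤ N2) →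
  (∀ j ∈ Fs d J, ∑ i, (j i + 1 + τ) ≤ Λ) →
  Net3 d (RJ J) (2 ^ d * N1) (2 ^ d * (N1 * (2 ^ (T.card + 1) * (Λ + 1))))
    (2 ^ d * (2 ^ T.card * N2 * (2 ^ τ + 1) ^ (2 * (d - T.card))))

/-- UQ-CNT: the number of keys.

PROOF. For `j ∈ Fs d J` let `e i = j i - J` (truncated). `∑ e i ≤ d`: `2^J * e i ≤ 2^(j i)` (for
`e i ≥ 1`, `2^(j i) = 2^J 2^(e i) ≥ 2^J e i`), so `2^J ∑ e i ≤ 2^J d`. So
`∑ (j i + 1 + τ) ≤ ∑ (J + e i + 1 + τ) ≤ d (J + 2 + τ)`, the second claim. The number of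
`e : Fin d → ℕ` with `∑ e ≤ d` is at most `4^d` (`∑_e ∏ (1/2)^(e i) ≤ 2^d` over any finite set, e.g. over
`Fintype.piFinset (fun _ => range (d + 1))` by `Finset.prod_univ_sum`, and each of these terms is
`≥ (1/2)^d`; or `(2 d).choose d ≤ 4^d`). The element `drop T' (key T (gJ τ J) j)` is determined by the
triple of `e`, of `i ↦ min (j i) J` on `T \ T'` (`(J + 1)^(|T| - |T'|)` values) and of
`i ↦ if j i < J then j i / τ else J / τ + 1` off `T` (values `≤ J / τ + 1`, so `(J / τ + 2)^(d - |T|)`):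
on `T'` it is `0`; on `T \ T'` it is `j i = min (j i) J + e i`; off `T`: if the third entry is
`J / τ + 1` then `j i ≥ J` (for `j i < J`, `j i / τ ≤ J / τ`) and the value is `j i = J + e i`, otherwise
it is `τ` times the third entry. So the set is contained in the image of a set of triples. -/
def G_CNT : Prop := ∀ (d J τ : ℕ) (T T' : Finset (Fin d)), 1 ≤ τ → τ ≤ J → T' ⊆ T →
  (((Fs d J).image (key T (gJ τ J))).image (drop T')).card ≤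
      4 ^ d * (J + 1) ^ (T.card - T'.card) * (J / τ + 2) ^ (d - T.card) ∧
    ∀ j ∈ Fs d J, ∑ i, (j i + 1 + τ) ≤ d * (J + 2 + τ)

/-! ### The choice of the parameters -/

/-- `log (e + x)`. -/
noncomputable def ll (x : ℝ) : ℝ := Real.log (Real.exp 1 + x)

/-- The bound `(x + 1) ℓ ((x + 1) λ / ℓ)^d`, `ℓ = log (e + x)`, `λ = log (e + ℓ)`. -/
noncomputable def gr (d : ℕ) (x : ℝ) : ℝ :=
  (x + 1) * ll x * ((x + 1) * ll (ll x) / ll x) ^ d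

/-- UQ-PAR: the parameters.

PROOF. Write `ℓ = ll J ≥ 1`, `λ = ll ℓ ≥ 1`, `M = (J + 1) λ / ℓ`, `P = (J+1)^K (J/τ+2)^(d-K)`. It is
enough to bound `Q2 = 2^d * (4^d * P * (2^(K+1) * (d (J+2+τ) + 1)))` and `Q3`. `A = 10^6`.
Case `J < 2^64`: `K = 0`, `τ = 1`. `J + 2 ≤ 2 (J + 1)`, `d (J + 3) + 1 ≤ 3 d (J + 1)`, so
`Q2 ≤ 16^d (J+1)^d * 6 d (J+1)`, `Q3 = 8^d (J+2)^d 9^d ≤ 144^d (J+1)^d`. `ℓ ≤ log (2^65) ≤ 46`, so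
`(J+1)^d ≤ 46^d M^d` (`J + 1 = M ℓ / λ ≤ 46 M`), and `6 d ≤ 12^d`, `ℓ ≥ 1`.
Case `2^64 ≤ J`: `l = Nat.log 2 J ≥ 64` (`2^l ≤ J < 2^(l+1)`), `m = Nat.log 2 l + 1 ≥ 7`
(`2^(m-1) ≤ l < 2^m`), and `8 m ≤ 2^(m-1) ≤ l` (induction from `m = 7`). `K = (d + m - 1) / m`, so
`K ≤ d` and `d ≤ m K ≤ d + m - 1`. `τ = l / (4 m) - 1`: `u := l / (4 m) ≥ 2`, `τ = u - 1 ≥ 1`, `τ ≤ l ≤ J`,
and `12 m τ ≥ l` (`4 m (u + 1) > l` and `3 (u - 1) ≥ u + 1`). Let `h = (K + 1) / 2`.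
`2 (τ+1)(d-K) ≤ l h`: `2 (τ+1) (d-K) * 2 ≤ 4 u d ≤ 4 u m K ≤ l K ≤ 2 l h`. So
`(2^τ + 1)^(2 (d-K)) ≤ 2^(2 (τ+1) (d-K)) ≤ 2^(l h) ≤ (J+1)^h`, and, as `K - h + h = K`,
`Q3 ≤ 2^d 2^K 4^d P ≤ 16^d P`. Next, as a real number, `J/τ + 2 ≤ 12 m J / l + 2 ≤ 14 m (J+1) / l`
(`J ≥ l`), so `P ≤ (J+1)^K (14 m (J+1)/l)^(d-K) = (J+1)^d (14 m / l)^d (l / (14 m))^K
≤ (J+1)^d 14^d (m / l)^d l^K` and `l^K ≤ 2^(m K) ≤ 2^d 2^(m-1) ≤ 2^d l`. Finally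
`l log 2 ≤ log J ≤ ℓ ≤ log (2^(l+2)) ≤ 2 l`, so `1 / l ≤ 2 / ℓ`, `l ≤ 2 ℓ`; and `m ≤ 4 λ`: `λ ≥ log (ℓ)
≥ log (l / 2) ` and `m ≤ 1 + log l / log 2 ≤ 1 + 1.45 log l`, `log l ≥ 4`. So
`P ≤ 28^d (J+1)^d (8 λ / ℓ)^d * 2 ℓ = 2 ℓ 224^d M^d`. Hence `Q3 ≤ 2 ℓ (3584)^d M^d`, and
`d (J+2+τ) + 1 ≤ 3 d (J+1)`, `2^(K+1) ≤ 2 * 2^d` give
`Q2 ≤ 8^d * 2 ℓ 224^d M^d * 2 * 2^d * 3 d (J+1) = 12 d * 3584^d (J+1) ℓ M^d`, `12 d ≤ 24^d`. -/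
def G_PAR : Prop := ∃ A : ℝ, 1 ≤ A ∧ ∀ d J : ℕ, 1 ≤ d → 1 ≤ J → ∃ K τ : ℕ, K ≤ d ∧ 1 ≤ τ ∧ τ ≤ J ∧
  ((2 ^ d * ((4 ^ d * (J + 1) ^ K * (J / τ + 2) ^ (d - K)) *
      (2 ^ (K + 1) * (d * (J + 2 + τ) + 1))) : ℕ) : ℝ) ≤ A ^ d * gr d J ∧
  ((2 ^ d * (2 ^ K * (4 ^ d * (J + 1) ^ (K - (K + 1) / 2) * (J / τ + 2) ^ (d - K)) *
      (2 ^ τ + 1) ^ (2 * (d - K))) : ℕ) : ℝ) ≤ A ^ d * gr d J

/-- UQ-NETZ: three step networks in `ℤ^d` (may assume `G_BOX`, `G_CNT`, `G_PAR`).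

PROOF. `K, τ` from `G_PAR`, `T` a set of `K` coordinates, `g = gJ τ J` (`g j ≤ j < g j + τ` as `τ ≥ 1`),
`N1 = 4^d (J+1)^K (J/τ+2)^(d-K)` (`G_CNT` with `T' = ∅`, `drop ∅ κ = κ`),
`N2 = 4^d (J+1)^(K - (K+1)/2) (J/τ+2)^(d-K)`, `Λ = d (J+2+τ)`. `G_BOX` gives a network with three
bounds, `T1` := the maximum of the three; the first one is at most the second one. `Net3` is monotone
in the bounds. -/
def G_NETZ : Prop := ∃ A : ℝ, 1 ≤ A ∧ ∀ d J : ℕ, 1 ≤ d → 1 ≤ J → ∃ T1 : ℕ,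
  (T1 : ℝ) ≤ A ^ d * gr d J ∧ Net3 d (RJ J) T1 T1 T1

/-! ### The geometric part -/

/-- UQ-TYP: transfer of three step networks by finitely many coordinate changes (types).

PROOF. Let `Θ0 = Z.biUnion C`. For `θ ∈ Θ0` let `Zθ = {x ∈ Z | θ ∈ C x}`, `Xθ = Zθ.image (low θ)`,
`Yθ = Zθ.image (up θ)`, and `hL, hU, H` (depending on `θ`) the network for `Xθ, Yθ`. Let `S` be the
union over `θ ∈ Θ0` of the pairs `(x, P θ v)` (`x ∈ Zθ`, `v ∈ hL (low θ x)`), `(y, Q θ w)` (`y ∈ Zθ`,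
`w ∈ hU (up θ y)`) and `(P θ v, Q θ w)` (`(v, w) ∈ H`). `|S| ≤ ∑_θ 3 T1 |Zθ| = 3 T1 ∑_{x ∈ Z} |C x| ≤
3 T1 B |Z|` (double counting, `Finset.sum_card_bipartiteAbove_eq_sum_card_bipartiteBelow` or
`Finset.sum_comm`). If `D x y` and `θ` is as in the hypothesis, first alternative, then
`x → P θ v → Q θ w → y` is a chain in `S` of length `≤ ρ x y + t` (`Reach.step`, `Reach.edge`,
`Reach.trans`); in the second alternative use `Reach.symm` and the symmetry of `ρ`. -/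
def G_TYP : Prop := ∀ (k T1 B : ℕ) (R : (Fin k → ℤ) → (Fin k → ℤ) → Prop), Net3 k R T1 T1 T1 →
  ∀ (E Θ : Type) (ρ : E → E → ℝ), (∀ x y, ρ x y = ρ y x) →
  ∀ (C : E → Finset Θ) (low up : Θ → E → (Fin k → ℤ)) (P Q : Θ → (Fin k → ℤ) → E) (t : ℝ)
    (D : E → E → Prop), (∀ x, (C x).card ≤ B) →
  (∀ x y, D x y → ∃ θ, θ ∈ C x ∧ θ ∈ C y ∧
    ((R (low θ x) (up θ y) ∧ ∀ v w : Fin k → ℤ, (∀ i, low θ x i ≤ v i ∧ v i ≤ w i ∧ w i ≤ up θ y i) →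
        ρ x (P θ v) + ρ (P θ v) (Q θ w) + ρ (Q θ w) y ≤ ρ x y + t) ∨
     (R (low θ y) (up θ x) ∧ ∀ v w : Fin k → ℤ, (∀ i, low θ y i ≤ v i ∧ v i ≤ w i ∧ w i ≤ up θ x i) →
        ρ y (P θ v) + ρ (P θ v) (Q θ w) + ρ (Q θ w) x ≤ ρ y x + t))) →
  ∀ Z : Finset E, ∃ S : Finset (E × E), S.card ≤ Z.card * (3 * B * T1) ∧
    ∀ x ∈ Z, ∀ y ∈ Z, D x y → Reach ρ (S : Set (E × E)) x y (ρ x y + t)

/-- UQ-GEO1: the pairs of one scale in `ℓ_1` (may assume `G_TYP`).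

PROOF. `u = r / (2 d)`, types `θ : Fin d → Bool` with signs `ε i = sg (θ i)` (`±1`, `sg` from
`Pool.Agent.Helper39.Net`), `C x = univ`, `B = 2^d`, `low θ x i = 2 ⌊ε_i x_i / u⌋`,
`up θ y i = 2 ⌊ε_i y_i / u⌋ + 1`, `P θ v = Q θ v = (i ↦ ε_i * (v_i * u / 2))`, `t = 3 r`,
`D x y := dOne x y ≤ 2^(q+3) r`. Given `x, y` choose `ε_i` with `ε_i x_i ≤ ε_i y_i` for all `i`. With
`α = ε_i x_i / u ≤ β = ε_i y_i / u`: `up - low = 2 (⌊β⌋ - ⌊α⌋) + 1` is `≥ 1` and `≤ 2 (β - α) + 3`, so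
`∑ (up - low) ≤ 2 (dOne x y) / u + 3 d = 4 d (dOne x y) / r + 3 d ≤ d (2^(q+5) + 3)`, and
`4 d (2^(q+5) + 3) ≤ 2^(q+8) d`. Error: for `⌊α⌋ ≤ p ≤ p' ≤ ⌊β⌋ + 1/2` (`p = v_i / 2`, `p' = w_i / 2`)
`|α - p| ≤ (p - α) + 2` (as `p ≥ α - 1`) and `|p' - β| ≤ (β - p') + 1` (as `p' ≤ β + 1/2`), so
`|α - p| + |p - p'| + |p' - β| ≤ β - α + 3`. Multiply by `u` (note `|x_i - ε_i p u| = u |α - p|`) and
sum: `≤ dOne x y + 3 d u ≤ dOne x y + 3 r`. -/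
def G_GEO1 : Prop := ∀ (d q T1 : ℕ), 1 ≤ d → Net3 d (RJ (q + 8)) T1 T1 T1 → ∀ r : ℝ, 0 < r →
  ∀ Z : Finset (Fin d → ℝ), ∃ S : Finset ((Fin d → ℝ) × (Fin d → ℝ)),
    S.card ≤ Z.card * (3 * 2 ^ d * T1) ∧ ∀ x ∈ Z, ∀ y ∈ Z, dOne x y ≤ 2 ^ (q + 3) * r →
      Reach dOne (S : Set ((Fin d → ℝ) × (Fin d → ℝ))) x y (dOne x y + 3 * r)

/-- UQ-LEG: one coordinate of the path in `ℓ_∞` (integers, everything linear).

`Xj, Yj` is the coordinate with the largest difference `Δ`, the path has `j`-coordinates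
`Xj, t1, t2, Yj`. PROOF. `τ1 = t1 - Xj`, `τ3 = Yj - t2`, `τ2 = t2 - t1 = Δ - τ1 - τ3`; `4 τ1 ≥ Δ + 4 p`,
`4 τ3 ≥ Δ + 4 p`, `4 τ2 ≥ 2 Δ - 16 p ≥ (3/2) Δ` as `32 p ≤ Δ`, i.e. `8 τ2 ≥ 3 Δ`; `Δ ≥ 32`. First claim:
all three are `≥ 0`. Second claim (`Δ ≤ 2 (Yi - Xi)`), with `2 (Xj - Xi) ≤ v ≤ w ≤ 2 (Yj - Yi) + 1`:
`(2 t1 - v) - 2 Xi ≤ 2 τ1`, `(2 t1 - v) - 2 Xi ≥ 2 τ1 - 2 Δ + 2 (Yi - Xi) - 1 ≥ 2 τ1 - Δ - 1 ≥ -2 τ1`;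
`(2 t2 - w) - (2 t1 - v) = 2 τ2 - (w - v)`, `0 ≤ w - v ≤ 2 Δ - 2 (Yi - Xi) + 1 ≤ Δ + 1 ≤ 4 τ2`;
`2 Yi - (2 t2 - w) ≤ 2 τ3 + 1` and `≥ 2 (Yi - Xi) - 2 (Δ - τ3) ≥ -Δ + 2 τ3 ≥ -2 τ3`. The third claim is
the second one for `-Xi, -Yi`. Fourth claim: `|2 Xi - 2 g| ≤ |Xi - Yi| + p`, `2 |Xi - Yi| ≤ Δ`, so
`4 |Xi - g| ≤ Δ + 2 p ≤ 4 τ1`, the same for `Yi`. (`omega` and `abs_le` do everything.) -/
def G_LEG : Prop := ∀ p Δ Xj Yj t1 t2 : ℤ, 1 ≤ p → 32 * p ≤ Δ → Yj - Xj = Δ →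
  Δ + 4 * p ≤ 4 * (t1 - Xj) → 4 * (t1 - Xj) ≤ Δ + 8 * p →
  Δ + 4 * p ≤ 4 * (Yj - t2) → 4 * (Yj - t2) ≤ Δ + 8 * p →
  (Xj ≤ t1 ∧ t1 ≤ t2 ∧ t2 ≤ Yj) ∧
  (∀ Xi Yi v w : ℤ, |Yi - Xi| ≤ Δ → Δ ≤ 2 * (Yi - Xi) → 2 * (Xj - Xi) ≤ v → v ≤ w →
    w ≤ 2 * (Yj - Yi) + 1 →
    |2 * Xi - (2 * t1 - v)| ≤ 2 * (t1 - Xj) ∧ |(2 * t1 - v) - (2 * t2 - w)| ≤ 2 * (t2 - t1) ∧
      |(2 * t2 - w) - 2 * Yi| ≤ 2 * (Yj - t2) + 1) ∧
  (∀ Xi Yi v w : ℤ, |Yi - Xi| ≤ Δ → Δ ≤ 2 * (Xi - Yi) → 2 * (Xj + Xi) ≤ v → v ≤ w →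
    w ≤ 2 * (Yj + Yi) + 1 →
    |2 * Xi - (v - 2 * t1)| ≤ 2 * (t1 - Xj) ∧ |(v - 2 * t1) - (w - 2 * t2)| ≤ 2 * (t2 - t1) ∧
      |(w - 2 * t2) - 2 * Yi| ≤ 2 * (Yj - t2) + 1) ∧
  (∀ Xi Yi g : ℤ, 2 * |Yi - Xi| ≤ Δ → |2 * g - (Xi + Yi)| ≤ p →
    |2 * Xi - 2 * g| ≤ 2 * (t1 - Xj) ∧ |2 * g - 2 * Yi| ≤ 2 * (Yj - t2))

/-- UQ-GEOI: the pairs of one scale in `ℓ_∞` (may assume `G_TYP`, `G_LEG`).

PROOF. `p = 2^(q-6) : ℤ`, `N = 2^(q+3) + 1`, `X i = round (x i / r)`, so `|x i - r X i| ≤ r / 2`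
(`abs_sub_round`). Types: `Θ = Fin (k+1) × ℤ × ℤ × (Fin k → Fin 3 × ℤ)`, `θ = (j, s1, s2, c)` with
`t1 = s1 * p`, `t2 = s2 * p`, and for `i : Fin k` (the coordinate `i' = j.succAbove i`) `c i = (κ, γ)`,
`g = γ * p`. Let `s N x j'` mean the interval of the integers `s` with `|s * p - X j'| ≤ N`; it is
contained in an interval with `≤ 2 N / p + 1 ≤ 1027 ≤ 2^11` elements (`2^(q+3) = 512 p`). `C x` := the
`θ` with `|t1 - X j| ≤ N`, `|t2 - X j| ≤ N`, and for every `i`: `κ ∈ {0, 1}` and `γ = 0`, or `κ = 2` and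
`|γ p - X i'| ≤ N`. So `|C x| ≤ (k+1) 2^22 (2 + 2^11)^k ≤ 2^(25 (k+1))`. (For the finset take e.g. the
`biUnion` over `j` of a product with `Fintype.piFinset`.)
`low θ x i = 2 (X j - X i')` for `κ = 0`, `2 (X j + X i')` for `κ = 1`, `0` for `κ = 2`;
`up θ y i = 2 (Y j - Y i') + 1`, `2 (Y j + Y i') + 1`, `1`.
`P θ v`: coordinate `j` is `r t1`, coordinate `i'` is `r (t1 - v_i / 2)`, `r (v_i / 2 - t1)`, `r g`.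
`Q θ w`: the same with `t2` and `w`. (`Fin.insertNth j` is convenient.)
Let `D x y` be `2^q r ≤ ρ ≤ 2^(q+3) r`, `ρ = dInf x y`. Let `j` maximise `|X j - Y j|`,
`Δ = |X j - Y j|`; `ρ / r - 1 ≤ Δ ≤ ρ / r + 1`, so `64 p - 1 ≤ Δ ≤ N`. By symmetry (the second
alternative of `G_TYP`) let `Y j - X j = Δ`. Choose the multiple `t1` of `p` with
`Δ + 4 p ≤ 4 (t1 - X j) ≤ Δ + 8 p` (the interval for `t1` has length `p`; e.g.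
`s1 = (4 X j + Δ + 8 p) / (4 p)` with integer division), and `t2` similarly. For each `i`: if
`Δ ≤ 2 (Y i' - X i')` take `κ = 0`, else if `Δ ≤ 2 (X i' - Y i')` take `κ = 1`, else `κ = 2` and `g` the
multiple of `p` with `|2 g - (X i' + Y i')| ≤ p` (e.g. `γ = (X i' + Y i' + p) / (2 p)`). Then `θ` is in
`C x ∩ C y`, since `X j ≤ t1 ≤ t2 ≤ Y j`, `Δ ≤ N` and `|2 g - 2 X i'| ≤ 2 (t1 - X j) ≤ 2 Δ`. `RJ`: each
`up - low` is `2 (Δ - |Y i' - X i'|) + 1` or `1`, so `≥ 1` and `≤ Δ + 1`, and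
`4 k (Δ + 1) ≤ 4 k (2^(q+3) + 2) ≤ 2^(q+8) k`. By `G_LEG` (and `t1 - X j` etc. for the coordinate `j`),
with `rX` for `i ↦ r * X i`: `dInf (rX) (P θ v) ≤ r (t1 - X j)`, `dInf (P θ v) (Q θ w) ≤ r (t2 - t1)`,
`dInf (Q θ w) (rY) ≤ r (Y j - t2) + r / 2`, total `r Δ + r / 2 ≤ ρ + 3 r / 2`; and
`dInf x (rX), dInf y (rY) ≤ r / 2`, so the sum of the three distances is `≤ ρ + 5 r / 2 ≤ ρ + 3 r`
(`dInf x y = ‖x - y‖`, `pi_norm_le_iff_of_nonneg`, `norm_le_pi_norm`). -/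
def G_GEOI : Prop := ∀ (k q T1 : ℕ), 1 ≤ k → 6 ≤ q → Net3 k (RJ (q + 8)) T1 T1 T1 →
  ∀ r : ℝ, 0 < r → ∀ Z : Finset (Fin (k + 1) → ℝ),
  ∃ S : Finset ((Fin (k + 1) → ℝ) × (Fin (k + 1) → ℝ)),
    S.card ≤ Z.card * (3 * 2 ^ (25 * (k + 1)) * T1) ∧ ∀ x ∈ Z, ∀ y ∈ Z,
      2 ^ q * r ≤ dInf x y → dInf x y ≤ 2 ^ (q + 3) * r →
      Reach dInf (S : Set ((Fin (k + 1) → ℝ) × (Fin (k + 1) → ℝ))) x y (dInf x y + 3 * r)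

/-- UQ-SPAN: `(1 + 6 / 2^q)`-networks from networks for one scale.

PROOF (adapt `Pool/Agent/Helper42/SQ/SPAN.lean` almost verbatim; there the hypothesis gives common hubs
and here it gives a set `S_r(Z)`). Same nets `N s`, same `Rel s`,
`S := ⋃_{s < J} ({(x, par s x) | x ∈ N s \ N (s + 1)} ∪ S_{r s}(Rel s))`, so
`|S| ≤ |X| (1 + 2 (q + 5) T0)`. The chain `x, x_s, …, y_s, y` has length
`≤ 2 r s + (ρ x_s y_s + 3 r s) + 2 r s ≤ D + 11 r s ≤ (1 + 6 / 2 ^ q) D` as `D ≥ 2^(q+1) r s`. -/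
def G_SPAN : Prop := ∀ (E : Type) (ρ : E → E → ℝ), (∀ x y, ρ x y = ρ y x) →
  (∀ x y z, ρ x z ≤ ρ x y + ρ y z) → (∀ x, ρ x x = 0) → (∀ x y, x ≠ y → 0 < ρ x y) →
  ∀ (q T0 : ℕ), 2 ≤ q →
  (∀ r : ℝ, 0 < r → ∀ Z : Finset E, ∃ S : Finset (E × E), S.card ≤ Z.card * T0 ∧
    ∀ x ∈ Z, ∀ y ∈ Z, 2 ^ q * r ≤ ρ x y → ρ x y ≤ 2 ^ (q + 3) * r →
      Reach ρ (S : Set (E × E)) x y (ρ x y + 3 * r)) →
  ∀ X : Finset E, ∃ S : Finset (E × E), S.card ≤ X.card * (1 + 2 * (q + 5) * T0) ∧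
    ∀ x ∈ X, ∀ y ∈ X, Reach ρ (S : Set (E × E)) x y ((1 + 6 / 2 ^ q) * ρ x y)

/-! ### The final bounds -/

/-- The number of scales. -/
noncomputable def qc (c : ℝ) : ℕ := max 6 ⌈Real.logb 2 (6 * (1 / (c - 1)))⌉₊

/-- The final bound `x^2 ℓ (x λ / ℓ)^d`. -/
noncomputable def bd (d : ℕ) (x : ℝ) : ℝ := x ^ 2 * ll x * (x * ll (ll x) / ll x) ^ d

/-- UQ-NUM: the final numerical estimates (`G c = 1 + log (1 + 1 / (c - 1))`).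

PROOF. The first claim and the bound `qc c ≤ 12 * G c + 3 ≤ 15 * G c` are as in
`Pool/Agent/Helper39/SQ/UPP.lean` (`five_le`, `qq_le`), with `5, 3` replaced by `6, 6`. Let `g = G c ≥ 1`
(`one_le_G`), `x = qc c + 8`; `x + 1 ≤ 24 g`, `q + 5 ≤ 20 g`, and `g ≤ x`: with `t = 1 / (c - 1)`, if
`t ≥ 1` then `log (1 + t) ≤ log (6 t) ≤ logb 2 (6 t) ≤ q`, and if `t < 1` then `log (1 + t) ≤ 1`. `ll` is
monotone on `[0, ∞)`, `ll y ≥ 1` and `ll (C y) ≤ log C + ll y ≤ (1 + log C) ll y` for `C ≥ 1`, `y ≥ 0`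
(`e + C y ≤ C (e + y)`). So `ll x ≤ ll (24 g) ≤ 5 ll g`, `ll (ll x) ≤ ll (5 ll g) ≤ 3 ll (ll g)`,
`ll x ≥ ll g`. Hence `(x+1) ll (ll x) / ll x ≤ 72 g ll (ll g) / ll g` and
`(q+5) gr d x ≤ 20 g * 24 g * 5 ll g * 72^d (g ll (ll g) / ll g)^d ≤ (72 * 2400)^d bd d g` (`d ≥ 1`).
Last claim: `ll g ≤ 1 + g ≤ 2 g` and `ll (ll g) ≥ 1`, so `g ll (ll g) / ll g ≥ 1 / 2`. -/
def G_NUM : Prop := (∀ c : ℝ, 1 < c → 6 / (2 : ℝ) ^ qc c ≤ c - 1) ∧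
  ∃ A : ℝ, 1 ≤ A ∧ ∀ (c : ℝ) (d : ℕ), 1 < c → 1 ≤ d →
    ((qc c : ℝ) + 5) * gr d ((qc c : ℝ) + 8) ≤ A ^ d * bd d (G c) ∧ 1 ≤ A ^ d * bd d (G c)

/-- UQ-UPP1: the bound for `ℓ_1` (may assume `G_NETZ`, `G_GEO1`, `G_SPAN`, `G_NUM`).

PROOF (compare `UPP` in `Pool/Agent/Helper39/SQ/UPP.lean`). `q = qc c`, `J = q + 8`, `T1` from
`G_NETZ`, `T0 = 3 * 2^d * T1`; `G_GEO1`, `G_SPAN` and `embeds_of_reach` give
`Embeds dOne M c (M.card * (1 + 2 (q+5) T0))`, so `CN ≤ 1 + 2 (q+5) T0` and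
`2 (q+5) 3 * 2^d T1 ≤ 6 * 2^d A^d (q+5) gr d (q+8)`. -/
def G_UPP1 : Prop := ∃ A : ℝ, 1 ≤ A ∧ ∀ (d : ℕ) (c : ℝ), 1 ≤ d → 1 < c →
  CN (dOne (d := d)) c ≤ A ^ d * bd d (G c)

/-- UQ-UPPI: the bound for `ℓ_∞` (may assume `G_NETZ`, `G_GEOI`, `G_SPAN`, `G_NUM`). PROOF: as
UQ-UPP1, with dimension `k` in `G_NETZ`, `G_NUM`, and `T0 = 3 * 2^(25 (k+1)) * T1`. -/
def G_UPPI : Prop := ∃ A : ℝ, 1 ≤ A ∧ ∀ (k : ℕ) (c : ℝ), 1 ≤ k → 1 < c →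
  CN (dInf (d := k + 1)) c ≤ A ^ (k + 1) * bd k (G c)

end Pool.Agent.Helper71.UQ
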