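import Pool.Agent.Helper71.UQ.Goals

/-!
# MP_9b2a83_an, project UQ: the bound `L ^ (d - k)` is wrong
-/

set_option autoImplicit false

namespace Pool.Agent.Helper71.UQ

open Pool.Agent.Helper39.Net

/-- UQ-NEG: for every `A, B, k` the new upper bound is below `B^(-d) L^(d - k)` for some `c, d`.

PROOF. `M = A B ≥ 1`. As `log y / y → 0`, `ll (y) / y → 0` for `y → ∞`, and `ll x → ∞` for `x → ∞`, there
is `x ≥ 2` with `M * ll (ll x) / ll x ≤ 1 / 4`. `c := 1 + 1 / (exp (x - 1) - 1)` has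
`1 / (c - 1) = exp (x - 1) - 1`, so `G c = 1 + log (exp (x - 1)) = x`. Then
`B^d A^d bd d x = x^2 ll x (M x ll (ll x) / ll x)^d ≤ x^2 ll x (x / 4)^d`, which is `< x^(d - k)` if
`d ≥ k` and `4^d > x^(k + 2) ll x`; and
`B^d A^d bd (d - 1) x = M x^2 ll x (M x ll (ll x) / ll x)^(d - 1) ≤ M x^2 ll x (x / 4)^(d - 1)`, which is
`< x^(d - k)` if `d ≥ max k 1` and `4^(d - 1) > M x^(k + 1) ll x`. Take `d` large
(`pow_unbounded_of_one_lt`). -/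
def G_NEG : Prop := ∀ (A B : ℝ) (k : ℕ), 1 ≤ A → 1 ≤ B → ∃ (c : ℝ) (d : ℕ), 1 < c ∧ 2 ≤ d ∧ k ≤ d ∧
  B ^ d * (A ^ d * bd d (G c)) < G c ^ (d - k) ∧
  B ^ d * (A ^ d * bd (d - 1) (G c)) < G c ^ (d - k)

end Pool.Agent.Helper71.UQ
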