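import Pool.Agent.Helper71.UQ.Goals

/-!
# UQ-NUM (backup)
-/

set_option autoImplicit false

namespace Pool.Agent.Helper71.UQ.PkNUM

open Pool.Agent.Helper39.Net Pool.Agent.Helper71.UQ

theorem six_le (c : ℝ) (hc : 1 < c) : 6 / (2 : ℝ) ^ qc c ≤ c - 1 := by
  have hc0 : 0 < c - 1 := by linarith
  have hpos : 0 < 6 * (1 / (c - 1)) := by positivity
  have h1 : Real.logb 2 (6 * (1 / (c - 1))) ≤ ⌈Real.logb 2 (6 * (1 / (c - 1)))⌉₊ := Nat.le_ceil _
  rw [Real.logb_le_iff_le_rpow (by norm_num) hpos, Real.rpow_natCast] at h1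
  have h2 : (2 : ℝ) ^ ⌈Real.logb 2 (6 * (1 / (c - 1)))⌉₊ ≤ 2 ^ qc c :=
    pow_le_pow_right₀ (by norm_num) (le_max_right _ _)
  have h3 : 6 * (1 / (c - 1)) ≤ (2 : ℝ) ^ qc c := h1.trans h2
  rw [mul_one_div, div_le_iff₀ hc0] at h3
  rw [div_le_iff₀ (by positivity)]
  linarith

theorem log_two_gt' : (2 : ℝ) / 3 < Real.log 2 := by
  have := Real.log_two_gt_d9
  linarith

theorem qc_le (c : ℝ) (hc : 1 < c) : (qc c : ℝ) ≤ 15 * G c := by
  set t := 1 / (c - 1) with ht
  have hc0 : 0 < c - 1 := by linarith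
  have ht0 : 0 < t := by positivity
  have hlog : 0 ≤ Real.log (1 + t) := Real.log_nonneg (by linarith)
  have h1 : qc c ≤ 6 + ⌈Real.logb 2 (6 * t)⌉₊ := by
    unfold qc
    rw [← ht]
    exact max_le (by omega) (by omega)
  have h2 : ⌈Real.logb 2 (6 * t)⌉₊ ≤ ⌈Real.logb 2 (8 * (1 + t))⌉₊ :=
    Nat.ceil_mono (Real.logb_le_logb_of_le (by norm_num) (by positivity) (by linarith))
  have h0 : 0 ≤ Real.logb 2 (8 * (1 + t)) := Real.logb_nonneg (by norm_num) (by linarith)
  have h3 : (⌈Real.logb 2 (8 * (1 + t))⌉₊ : ℝ) < Real.logb 2 (8 * (1 + t)) + 1 :=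
    Nat.ceil_lt_add_one h0
  have h4 : Real.logb 2 (8 * (1 + t)) = 3 + Real.logb 2 (1 + t) := by
    rw [Real.logb_mul (by norm_num) (by positivity)]
    congr 1
    rw [show (8 : ℝ) = 2 ^ (3 : ℕ) by norm_num, Real.logb_pow, Real.logb_self_eq_one
      (by norm_num)]
    norm_num
  have h5 : Real.logb 2 (1 + t) ≤ 3 / 2 * Real.log (1 + t) := by
    unfold Real.logb
    rw [div_le_iff₀ (by linarith [log_two_gt'])]
    nlinarith [log_two_gt']
  have h6 : (qc c : ℝ) ≤ 6 + (⌈Real.logb 2 (8 * (1 + t))⌉₊ : ℝ) := by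
    have : qc c ≤ 6 + ⌈Real.logb 2 (8 * (1 + t))⌉₊ := by omega
    exact_mod_cast this
  unfold G
  rw [← ht]
  linarith

theorem G_le (c : ℝ) (hc : 1 < c) : G c ≤ (qc c : ℝ) + 1 := by
  set t := 1 / (c - 1) with ht
  have hc0 : 0 < c - 1 := by linarith
  have ht0 : 0 < t := by positivity
  unfold G
  rw [← ht]
  rcases le_or_gt 1 t with h | h
  · have h1 : Real.log (1 + t) ≤ Real.log (6 * t) := Real.log_le_log (by positivity) (by linarith)
    have h2 : Real.log (6 * t) ≤ Real.logb 2 (6 * t) := by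
      unfold Real.logb
      rw [le_div_iff₀ (by linarith [log_two_gt'])]
      have h3 : 0 ≤ Real.log (6 * t) := Real.log_nonneg (by linarith)
      have h4 : Real.log 2 ≤ 1 := by have := Real.log_two_lt_d9; linarith
      nlinarith
    have h3 : Real.logb 2 (6 * t) ≤ (⌈Real.logb 2 (6 * t)⌉₊ : ℝ) := Nat.le_ceil _
    have h4 : ⌈Real.logb 2 (6 * t)⌉₊ ≤ qc c := le_max_right _ _
    have h5 : (⌈Real.logb 2 (6 * t)⌉₊ : ℝ) ≤ qc c := by exact_mod_cast h4
    linarith
  · have h1 : Real.log (1 + t) ≤ t := by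
      have := Real.log_le_sub_one_of_pos (x := 1 + t) (by positivity)
      linarith
    have h2 : (0 : ℝ) ≤ qc c := by positivity
    have h3 : 6 ≤ qc c := le_max_left _ _
    have h4 : (6 : ℝ) ≤ qc c := by exact_mod_cast h3
    linarith

theorem ll_mono {x y : ℝ} (hx : 0 ≤ x) (h : x ≤ y) : ll x ≤ ll y := by
  unfold ll
  exact Real.log_le_log (by positivity) (by linarith)

theorem one_le_ll {x : ℝ} (hx : 0 ≤ x) : 1 ≤ ll x := by
  unfold ll
  have h : Real.log (Real.exp 1) ≤ Real.log (Real.exp 1 + x) :=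
    Real.log_le_log (Real.exp_pos 1) (by linarith)
  rwa [Real.log_exp] at h

theorem ll_mul {C y : ℝ} (hC : 1 ≤ C) (hy : 0 ≤ y) : ll (C * y) ≤ (1 + Real.log C) * ll y := by
  have hl : 0 ≤ Real.log C := Real.log_nonneg hC
  have h1 : ll (C * y) ≤ Real.log C + ll y := by
    unfold ll
    rw [← Real.log_mul (by positivity) (by positivity)]
    refine Real.log_le_log (by positivity) ?_
    nlinarith [Real.exp_pos 1]
  have h2 := one_le_ll hy
  nlinarith

theorem log24 : Real.log 24 ≤ 4 := by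
  have h : Real.log 24 ≤ Real.log (Real.exp 1 ^ 4) := by
    refine Real.log_le_log (by norm_num) ?_
    have h1 : (2.7 : ℝ) ≤ Real.exp 1 := by have := Real.exp_one_gt_d9; linarith
    have h2 : (2.7 : ℝ) ^ 4 ≤ Real.exp 1 ^ 4 := pow_le_pow_left₀ (by norm_num) h1 4
    norm_num at h2 ⊢
    linarith
  rwa [Real.log_pow, Real.log_exp, mul_one] at h

theorem log5 : Real.log 5 ≤ 2 := by
  have h : Real.log 5 ≤ Real.log (Real.exp 1 ^ 2) := by
    refine Real.log_le_log (by norm_num) ?_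
    have h1 : (2.7 : ℝ) ≤ Real.exp 1 := by have := Real.exp_one_gt_d9; linarith
    have h2 : (2.7 : ℝ) ^ 2 ≤ Real.exp 1 ^ 2 := pow_le_pow_left₀ (by norm_num) h1 2
    norm_num at h2 ⊢
    linarith
  rwa [Real.log_pow, Real.log_exp, mul_one] at h

theorem main (c : ℝ) (d : ℕ) (hc : 1 < c) (hd : 1 ≤ d) :
    ((qc c : ℝ) + 5) * gr d ((qc c : ℝ) + 8) ≤ (10 ^ 6 : ℝ) ^ d * bd d (G c) ∧
      1 ≤ (10 ^ 6 : ℝ) ^ d * bd d (G c) := by
  have hg : 1 ≤ G c := one_le_G hc
  have hq := qc_le c hc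
  have hG := G_le c hc
  have h6 : 6 ≤ qc c := le_max_left _ _
  have h6' : (6 : ℝ) ≤ qc c := by exact_mod_cast h6
  set g := G c with hgdef
  set x : ℝ := (qc c : ℝ) + 8 with hx
  have hx0 : 0 ≤ x := by linarith
  have hx1 : x + 1 ≤ 24 * g := by linarith
  have hx2 : x ≤ 24 * g := by linarith
  have hgx : g ≤ x := by linarith
  have hq5 : (qc c : ℝ) + 5 ≤ 20 * g := by linarith
  have hq50 : 0 ≤ (qc c : ℝ) + 5 := by linarith
  have hg0 : 0 ≤ g := by linarith
  have l1 : ll g ≤ ll x := ll_mono hg0 hgx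
  have l2 : ll x ≤ 5 * ll g := by
    have h1 := ll_mono hx0 hx2
    have h2 := ll_mul (C := 24) (by norm_num) hg0
    have h3 := one_le_ll hg0
    have h4 := log24
    nlinarith
  have o1 : 1 ≤ ll g := one_le_ll hg0
  have o2 : 1 ≤ ll x := one_le_ll hx0
  have l3 : ll (ll x) ≤ 3 * ll (ll g) := by
    have h1 := ll_mono (by linarith : (0 : ℝ) ≤ ll x) l2
    have h2 := ll_mul (C := 5) (y := ll g) (by norm_num) (by linarith)
    have h3 := one_le_ll (x := ll g) (by linarith)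
    have h4 := log5
    nlinarith
  have o3 : 1 ≤ ll (ll g) := one_le_ll (by linarith)
  have o4 : 1 ≤ ll (ll x) := one_le_ll (by linarith)
  have hr : (x + 1) * ll (ll x) / ll x ≤ 72 * (g * ll (ll g) / ll g) := by
    rw [div_le_iff₀ (by linarith)]
    have e1 : (x + 1) * ll (ll x) ≤ 24 * g * (3 * ll (ll g)) :=
      mul_le_mul hx1 l3 (by linarith) (by linarith)
    have e2 : 72 * (g * ll (ll g) / ll g) * ll g = 24 * g * (3 * ll (ll g)) := by
      field_simp
      ring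
    have e3 : 0 ≤ 72 * (g * ll (ll g) / ll g) := by positivity
    nlinarith
  set R := g * ll (ll g) / ll g with hR
  have hR0 : 0 < R := by rw [hR]; positivity
  have hr0 : 0 ≤ (x + 1) * ll (ll x) / ll x := by positivity
  have hp : ((x + 1) * ll (ll x) / ll x) ^ d ≤ 72 ^ d * R ^ d := by
    rw [← mul_pow]
    exact pow_le_pow_left₀ hr0 hr d
  have hd0 : d ≠ 0 := by omega
  constructor
  · unfold gr bd
    rw [← hR]
    have s1 : (x + 1) * ll x * ((x + 1) * ll (ll x) / ll x) ^ d ≤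
        24 * g * (5 * ll g) * (72 ^ d * R ^ d) := by
      refine mul_le_mul (mul_le_mul hx1 l2 (by linarith) (by linarith)) hp (by positivity)
        (by positivity)
    have s2 : ((qc c : ℝ) + 5) * ((x + 1) * ll x * ((x + 1) * ll (ll x) / ll x) ^ d) ≤
        20 * g * (24 * g * (5 * ll g) * (72 ^ d * R ^ d)) :=
      mul_le_mul hq5 s1 (by positivity) (by positivity)
    refine s2.trans ?_
    have s3 : (2400 : ℝ) * 72 ^ d ≤ (10 ^ 6) ^ d := by
      have : (2400 : ℝ) ≤ 2400 ^ d := le_self_pow₀ (by norm_num) hd0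
      calc (2400 : ℝ) * 72 ^ d ≤ 2400 ^ d * 72 ^ d := by gcongr
        _ = 172800 ^ d := by rw [← mul_pow]; norm_num
        _ ≤ (10 ^ 6) ^ d := pow_le_pow_left₀ (by norm_num) (by norm_num) d
    calc 20 * g * (24 * g * (5 * ll g) * (72 ^ d * R ^ d)) =
        (2400 * 72 ^ d) * (g ^ 2 * ll g * R ^ d) := by ring
      _ ≤ (10 ^ 6) ^ d * (g ^ 2 * ll g * R ^ d) := by gcongr
  · unfold bd
    rw [← hR]
    have hll : ll g ≤ 2 * g := by
      have h1 : ll g ≤ 1 + g := by
        unfold ll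
        have h2 := Real.log_le_sub_one_of_pos (x := (Real.exp 1 + g) / Real.exp 1) (by positivity)
        rw [Real.log_div (by positivity) (by positivity), Real.log_exp] at h2
        have h3 : (Real.exp 1 + g) / Real.exp 1 - 1 ≤ g := by
          rw [div_sub_one (by positivity), div_le_iff₀ (by positivity)]
          have h4 : (1 : ℝ) ≤ Real.exp 1 := by have := Real.exp_one_gt_d9; linarith
          nlinarith
        linarith
      linarith
    have hR2 : 1 / 2 ≤ R := by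
      rw [hR, le_div_iff₀ (by linarith)]
      nlinarith
    have h1 : (1 : ℝ) ≤ (10 ^ 6) ^ d * R ^ d := by
      rw [← mul_pow]
      exact one_le_pow₀ (by linarith)
    have h2 : 1 ≤ g ^ 2 * ll g := one_le_mul_of_one_le_of_one_le (one_le_pow₀ hg) o1
    calc (1 : ℝ) ≤ (10 ^ 6) ^ d * R ^ d := h1
      _ ≤ (g ^ 2 * ll g) * ((10 ^ 6) ^ d * R ^ d) := by
        have : 0 ≤ (10 ^ 6 : ℝ) ^ d * R ^ d := by positivity
        nlinarith
      _ = _ := by ring

theorem thm : G_NUM := ⟨six_le, 10 ^ 6, by norm_num, fun c d hc hd => main c d hc hd⟩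

end Pool.Agent.Helper71.UQ.PkNUM
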